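import Pool.Agent.N352.PJ.Lat

/-!
# Project PJ: multiplication by `θ` in a normalised basis (`S_CHI`), Gram determinant (`S_DET`)
-/

set_option autoImplicit false
set_option linter.all false

open Polynomial Matrix

namespace Pool.Agent.N262.PJ

open Pool.Agent.N352.PJ

/-! ### The antidiagonal matrix -/

theorem det_anti_succ (R : Type) [CommRing R] (n : ℕ) :
    (Matrix.of fun i j : Fin (n + 1) => if j = Fin.rev i then (1 : R) else 0).det =
      (-1) ^ n * (Matrix.of fun i j : Fin n => if j = Fin.rev i then (1 : R) else 0).det := by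
  rw [Matrix.det_succ_row_zero, Finset.sum_eq_single (Fin.last n)]
  · rw [Matrix.of_apply, if_pos (by simp), mul_one, Fin.val_last]
    congr 2
    ext i j
    rw [Matrix.submatrix_apply, Matrix.of_apply, Matrix.of_apply, Fin.succAbove_last,
      Fin.rev_succ]
    exact if_congr Fin.castSucc_inj rfl rfl
  · intro j _ hj
    rw [Matrix.of_apply, if_neg (by rwa [Fin.rev_zero]), mul_zero, zero_mul]
  · intro h; exact absurd (Finset.mem_univ _) h

theorem det_Jm (R : Type) [CommRing R] (g : ℕ) : (Jm g R).det = (-1) ^ g := by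
  unfold Jm
  induction g with
  | zero => simp
  | succ g ih =>
    have e : 2 * (g + 1) + 1 = (2 * g + 1) + 1 + 1 := by ring
    have h1 : (Matrix.of fun i j : Fin (2 * (g + 1) + 1) =>
        if j = Fin.rev i then (1 : R) else 0).det =
        (Matrix.of fun i j : Fin ((2 * g + 1) + 1 + 1) =>
          if j = Fin.rev i then (1 : R) else 0).det := rfl
    rw [h1, det_anti_succ, det_anti_succ, ih, pow_succ (-1 : R) g,
      show (-1 : R) ^ (2 * g + 1 + 1) = 1 by rw [show 2 * g + 1 + 1 = 2 * (g + 1) by ring]; simp,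
      show (-1 : R) ^ (2 * g + 1) = -1 by simp [pow_succ]]
    ring

theorem Jm_mul_apply {g : ℕ} {R : Type} [CommRing R] (B : Mt g R) (i j : Fin (2 * g + 1)) :
    (Jm g R * B) i j = B (Fin.rev i) j := by
  rw [Matrix.mul_apply, Finset.sum_eq_single (Fin.rev i)]
  · simp [Jm]
  · intro b _ hb
    simp [Jm, hb]
  · intro h; exact absurd (Finset.mem_univ _) h

theorem mul_Jm_apply {g : ℕ} {R : Type} [CommRing R] (B : Mt g R) (i j : Fin (2 * g + 1)) :
    (B * Jm g R) i j = B i (Fin.rev j) := by
  rw [Matrix.mul_apply, Finset.sum_eq_single (Fin.rev j)]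
  · simp [Jm]
  · intro b _ hb
    have : j ≠ Fin.rev b := fun h => hb (by rw [h, Fin.rev_rev])
    simp [Jm, this]
  · intro h; exact absurd (Finset.mem_univ _) h

section gen

variable {g : ℕ} {k K L : Type} [Field k] [Field K] [Algebra k[X] K]
  [Field L] [Algebra K L] [Algebra k[X] L] [IsScalarTower k[X] K L] {f : k[X][X]} {θ : L}

theorem root_map (h : IsGen g K f θ) : aeval θ (f.map (algebraMap k[X] K)) = 0 := by
  rw [aeval_def, eval₂_map, ← IsScalarTower.algebraMap_eq]
  exact h.root

theorem fin_dim (h : IsGen g K f θ) : FiniteDimensional K L :=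
  Module.finite_of_finrank_pos (by rw [h.rank]; omega)

theorem minpoly_deg (h : IsGen g K f θ) : (minpoly K θ).natDegree = 2 * g + 1 := by
  have := fin_dim h
  rw [← h.rank, ← Field.primitive_element_iff_minpoly_natDegree_eq, eq_top_iff]
  intro x _
  obtain ⟨c, rfl⟩ := h.gen x
  refine sum_mem fun i _ => mul_mem (IntermediateField.algebraMap_mem _ _) (pow_mem ?_ _)
  exact IntermediateField.mem_adjoin_simple_self K θ

theorem minpoly_eq (h : IsGen g K f θ) : minpoly K θ = f.map (algebraMap k[X] K) := by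
  have := fin_dim h
  have h1 : (f.map (algebraMap k[X] K)).Monic := h.mon.map _
  refine (Polynomial.eq_of_monic_of_dvd_of_natDegree_le
    (minpoly.monic (IsIntegral.of_finite K θ)) h1 (minpoly.dvd K θ (root_map h)) ?_).symm
  rw [minpoly_deg h, h.mon.natDegree_map, h.deg]

theorem charpoly_mulMatrix (h : IsGen g K f θ) (b : Module.Basis (Fin (2 * g + 1)) K L) :
    (Algebra.leftMulMatrix b θ).charpoly = f.map (algebraMap k[X] K) := by
  have := fin_dim h
  have h1 : (Algebra.leftMulMatrix b θ).charpoly = (Algebra.lmul K L θ).charpoly := by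
    rw [Algebra.leftMulMatrix_apply]
    exact LinearMap.charpoly_toMatrix _ b
  rw [h1, ← minpoly_eq h]
  refine Polynomial.eq_of_monic_of_dvd_of_natDegree_le
    (minpoly.monic (IsIntegral.of_finite K θ)) (LinearMap.charpoly_monic _) ?_ ?_
  · have h2 := LinearMap.minpoly_dvd_charpoly (Algebra.lmul K L θ)
    have h3 : minpoly K (Algebra.lmul K L θ) = minpoly K θ :=
      minpoly.algHom_eq (Algebra.lmul K L) Algebra.lmul_injective θ
    rwa [h3] at h2
  · rw [LinearMap.charpoly_natDegree, h.rank, minpoly_deg h]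

/-- coordinates in a normalised basis -/
theorem top_eq (h : IsGen g K f θ) {α : L} {e : Fin (2 * g + 1) → L}
    (hJ : ∀ i j, h.top (e i * e j / α) = Jm g K i j) (b : Module.Basis (Fin (2 * g + 1)) K L)
    (hb : ∀ i, b i = e i) (z : L) (j : Fin (2 * g + 1)) :
    h.top (z * e j / α) = b.repr z (Fin.rev j) := by
  have h1 : z * e j / α = ∑ l, b.repr z l • (e l * e j / α) := by
    conv_lhs => rw [← b.sum_repr z]
    rw [Finset.sum_mul, Finset.sum_div]
    refine Finset.sum_congr rfl fun l _ => ?_
    rw [hb, Algebra.smul_def, Algebra.smul_def]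
    ring
  rw [h1, map_sum, Finset.sum_eq_single (Fin.rev j)]
  · rw [map_smul, hJ]
    simp [Jm]
  · intro l _ hl
    rw [map_smul, hJ]
    have : j ≠ Fin.rev l := fun hh => hl (by rw [hh, Fin.rev_rev])
    simp [Jm, this]
  · intro hh; exact absurd (Finset.mem_univ _) hh

end gen

/-- **The operator of multiplication by `θ` in a normalised basis.** -/
theorem chi : S_CHI := by
  intro g k K L _ _ _ _ _ _ _ _ f θ h α e hα he hJ
  have hfd := fin_dim h
  let b : Module.Basis (Fin (2 * g + 1)) K L :=
    basisOfLinearIndependentOfCardEqFinrank he (by rw [h.rank, Fintype.card_fin])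
  have hb : ∀ i, b i = e i := fun i => by
    simp [b, coe_basisOfLinearIndependentOfCardEqFinrank]
  set B : Mt g K := Matrix.of fun i j => h.top (θ * (e i * e j) / α) with hB
  have hJB : Jm g K * B = Algebra.leftMulMatrix b θ := by
    ext i j
    rw [Jm_mul_apply, hB, Matrix.of_apply, Algebra.leftMulMatrix_eq_repr_mul, hb]
    have e1 : θ * (e (Fin.rev i) * e j) / α = (θ * e j) * e (Fin.rev i) / α := by ring
    rw [e1, top_eq h hJ b hb, Fin.rev_rev]
  refine ⟨?_, fun m ξ => ?_⟩
  · unfold chp
    rw [hJB]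
    exact charpoly_mulMatrix h b
  · unfold form
    rw [hJB, ← map_pow]
    have e2 : θ ^ m * (∑ i, algebraMap K L (ξ i) * e i) ^ 2 / α =
        ∑ i, ξ i • ∑ j, ξ j • (θ ^ m * e j * e i / α) := by
      rw [sq, Finset.sum_mul, Finset.mul_sum, Finset.sum_div]
      refine Finset.sum_congr rfl fun i _ => ?_
      rw [Finset.mul_sum, Finset.mul_sum, Finset.sum_div, Algebra.smul_def, Finset.mul_sum]
      refine Finset.sum_congr rfl fun j _ => ?_
      rw [Algebra.smul_def]
      ring
    rw [e2, map_sum]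
    unfold dotProduct
    refine Finset.sum_congr rfl fun i _ => ?_
    rw [map_smul, smul_eq_mul, map_sum]
    congr 1
    unfold Matrix.mulVec dotProduct
    refine Finset.sum_congr rfl fun j _ => ?_
    show (Jm g K * Algebra.leftMulMatrix b (θ ^ m)) i j * ξ j = _
    rw [map_smul, smul_eq_mul, Jm_mul_apply, Algebra.leftMulMatrix_eq_repr_mul, hb,
      top_eq h hJ b hb, mul_comm]

/-- **The determinant of the Gram matrix.** -/
theorem det : S_DET := by
  intro g k K L _ _ _ _ _ _ _ _ f θ h α E hα
  have hfd := fin_dim h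
  set N : Mt g K := Algebra.leftMulMatrix h.basis α⁻¹ with hN
  set H : Mt g K := Matrix.of fun c b => h.top (θ ^ (c : ℕ) * θ ^ (b : ℕ)) with hH
  have h1 : (Matrix.of fun i j => h.top ((∑ a, algebraMap K L (E i a) * θ ^ (a : ℕ)) *
      (∑ a, algebraMap K L (E j a) * θ ^ (a : ℕ)) / α) : Mt g K) = E * (Nᵀ * H) * Eᵀ := by
    ext i j
    rw [Matrix.of_apply]
    have e1 : (∑ a, algebraMap K L (E i a) * θ ^ (a : ℕ)) *
        (∑ a, algebraMap K L (E j a) * θ ^ (a : ℕ)) / α =
        ∑ b, E j b • ∑ a, E i a • (θ ^ (a : ℕ) * θ ^ (b : ℕ) / α) := by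
      rw [mul_comm, Finset.sum_mul, Finset.sum_div]
      refine Finset.sum_congr rfl fun b _ => ?_
      rw [Finset.mul_sum, Finset.sum_div, Algebra.smul_def, Finset.mul_sum]
      refine Finset.sum_congr rfl fun a _ => ?_
      rw [Algebra.smul_def]
      ring
    have e2 : ∀ a b : Fin (2 * g + 1), h.top (θ ^ (a : ℕ) * θ ^ (b : ℕ) / α) =
        (Nᵀ * H) a b := by
      intro a b
      rw [Matrix.mul_apply]
      have e3 : θ ^ (a : ℕ) * θ ^ (b : ℕ) / α =
          ∑ c, N c a • (θ ^ (c : ℕ) * θ ^ (b : ℕ)) := by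
        have e4 : α⁻¹ * θ ^ (a : ℕ) = ∑ c, N c a • θ ^ (c : ℕ) := by
          have := h.basis.sum_repr (α⁻¹ * h.basis a)
          rw [h.basis_apply] at this
          rw [← this]
          refine Finset.sum_congr rfl fun c _ => ?_
          rw [hN, Algebra.leftMulMatrix_eq_repr_mul, h.basis_apply, h.basis_apply]
        have e5 : θ ^ (a : ℕ) * θ ^ (b : ℕ) / α = (α⁻¹ * θ ^ (a : ℕ)) * θ ^ (b : ℕ) := by
          rw [div_eq_mul_inv]; ring
        rw [e5, e4, Finset.sum_mul]
        refine Finset.sum_congr rfl fun c _ => ?_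
        rw [Algebra.smul_def, Algebra.smul_def]
        ring
      rw [e3, map_sum]
      refine Finset.sum_congr rfl fun c _ => ?_
      rw [map_smul, smul_eq_mul, Matrix.transpose_apply, hH, Matrix.of_apply]
    rw [e1, map_sum, Matrix.mul_apply]
    refine Finset.sum_congr rfl fun b _ => ?_
    rw [map_smul, smul_eq_mul, map_sum, Matrix.transpose_apply, mul_comm]
    congr 1
    rw [Matrix.mul_apply]
    refine Finset.sum_congr rfl fun a _ => ?_
    rw [map_smul, smul_eq_mul, e2]
  have htop : ∀ m : ℕ, m ≤ 2 * g → h.top (θ ^ m) = if m = 2 * g then 1 else 0 := by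
    intro m hm
    have e1 : θ ^ m = h.basis ⟨m, by omega⟩ := by rw [h.basis_apply]
    rw [e1]
    unfold IsGen.top
    rw [Module.Basis.coord_apply, Module.Basis.repr_self, Finsupp.single_apply]
    congr 1
    rw [Fin.ext_iff, Fin.val_last]
  have hHJ : (H * Jm g K).det = 1 := by
    rw [Matrix.det_of_lowerTriangular]
    · apply Finset.prod_eq_one
      intro i _
      rw [mul_Jm_apply, hH, Matrix.of_apply, ← pow_add, Fin.val_rev, htop]
      · rw [if_pos (by omega)]
      · omega
    · intro i j hij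
      have hij' : (i : ℕ) < j := hij
      rw [mul_Jm_apply, hH, Matrix.of_apply, ← pow_add, Fin.val_rev, htop]
      · rw [if_neg (by omega)]
      · omega
  have hHd : H.det = (-1) ^ g := by
    rw [Matrix.det_mul, det_Jm] at hHJ
    have : H.det * ((-1) ^ g * (-1) ^ g) = (-1) ^ g := by
      rw [← mul_assoc, hHJ, one_mul]
    rwa [← mul_pow, neg_one_mul, neg_neg, one_pow, mul_one] at this
  have hNd : N.det = (Algebra.norm K α)⁻¹ := by
    rw [hN, ← Algebra.norm_eq_matrix_det]
    apply eq_inv_of_mul_eq_one_left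
    rw [← map_mul, inv_mul_cancel₀ hα, map_one]
  rw [h1, Matrix.det_mul, Matrix.det_mul, Matrix.det_mul, Matrix.det_transpose,
    Matrix.det_transpose, hHd, hNd]
  ring

end Pool.Agent.N262.PJ
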