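import Pool.Agent.N262.PJ.Chi

/-!
# Project PJ: the Gram matrix of the lattice is integral and unimodular (`S_UNI`)
-/

set_option autoImplicit false
set_option linter.all false

open Polynomial Matrix

namespace Pool.Agent.N262.PJ

open Pool.Agent.N352.PJ

section gen

variable {g : ℕ} {k K L : Type} [Field k] [Field K] [Algebra k[X] K]
  [Field L] [Algebra K L] [Algebra k[X] L] [IsScalarTower k[X] K L] {f : k[X][X]} {θ : L}

theorem top_pow (h : IsGen g K f θ) (m : ℕ) (hm : m ≤ 2 * g) :
    h.top (θ ^ m) = if m = 2 * g then 1 else 0 := by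
  have e1 : θ ^ m = h.basis ⟨m, by omega⟩ := by rw [h.basis_apply]
  rw [e1]
  unfold IsGen.top
  rw [Module.Basis.coord_apply, Module.Basis.repr_self, Finsupp.single_apply]
  congr 1
  rw [Fin.ext_iff, Fin.val_last]

theorem theta_int (h : IsGen g K f θ) : IsIntegral k[X] θ := ⟨f, h.mon, h.root⟩

theorem sum_eq (h : IsGen g K f θ) (z : L) :
    z = ∑ i : Fin (2 * g + 1), h.basis.repr z i • θ ^ (i : ℕ) := by
  conv_lhs => rw [← h.basis.sum_repr z]
  refine Finset.sum_congr rfl fun i _ => ?_
  rw [h.basis_apply]

theorem top_int (h : IsGen g K f θ)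
    (hint : ∀ x : L, IsIntegral k[X] x ↔ ∃ v : Fin (2 * g + 1) → k[X], Crd g θ v x) {x : L}
    (hx : IsIntegral k[X] x) : h.top x ∈ (algebraMap k[X] K).range := by
  obtain ⟨v, hv⟩ := (hint x).mp hx
  unfold Crd at hv
  rw [hv, map_sum]
  refine sum_mem fun i _ => ?_
  have e1 : algebraMap k[X] L (v i) * θ ^ (i : ℕ) = algebraMap k[X] K (v i) • θ ^ (i : ℕ) := by
    rw [Algebra.smul_def, ← IsScalarTower.algebraMap_apply]
  rw [e1, map_smul, smul_eq_mul, top_pow h i (by omega)]
  refine mul_mem ⟨v i, rfl⟩ ?_
  split_ifs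
  · exact one_mem _
  · exact zero_mem _

/-- an element with integral moments is integral -/
theorem int_of_top (h : IsGen g K f θ)
    (hint : ∀ x : L, IsIntegral k[X] x ↔ ∃ v : Fin (2 * g + 1) → k[X], Crd g θ v x) {z : L}
    (hz : ∀ m ≤ 2 * g, h.top (z * θ ^ m) ∈ (algebraMap k[X] K).range) : IsIntegral k[X] z := by
  have key : ∀ m : ℕ, ∀ i : Fin (2 * g + 1), (i : ℕ) + m = 2 * g →
      h.basis.repr z i ∈ (algebraMap k[X] K).range := by
    intro m
    induction m using Nat.strong_induction_on with
    | _ m ih =>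
      intro i him
      have h1 : z * θ ^ m = ∑ l : Fin (2 * g + 1), h.basis.repr z l • θ ^ ((l : ℕ) + m) := by
        conv_lhs => rw [sum_eq h z, Finset.sum_mul]
        refine Finset.sum_congr rfl fun l _ => ?_
        rw [pow_add, Algebra.smul_def, Algebra.smul_def]
        ring
      have h2 := hz m (by omega)
      rw [h1, map_sum, ← Finset.add_sum_erase _ _ (Finset.mem_univ i), map_smul, smul_eq_mul,
        top_pow h _ (by omega), if_pos him, mul_one] at h2
      have h3 : ∑ l ∈ Finset.univ.erase i, h.top (h.basis.repr z l • θ ^ ((l : ℕ) + m)) ∈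
          (algebraMap k[X] K).range := by
        refine sum_mem fun l hl => ?_
        have hli : l ≠ i := (Finset.mem_erase.mp hl).1
        have hli' : (l : ℕ) ≠ i := fun hh => hli (Fin.ext hh)
        rw [map_smul, smul_eq_mul]
        rcases lt_or_gt_of_ne hli' with hlt | hgt
        · rw [top_pow h _ (by omega), if_neg (by omega), mul_zero]
          exact zero_mem _
        · refine mul_mem (ih (2 * g - l) (by omega) l (by omega)) ?_
          exact top_int h hint ((theta_int h).pow _)
      have h4 := sub_mem h2 h3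
      rwa [add_sub_cancel_right] at h4
  rw [sum_eq h z]
  refine IsIntegral.sum _ fun i _ => ?_
  obtain ⟨p, hp⟩ := key (2 * g - i) i (by omega)
  rw [← hp, Algebra.smul_def, ← IsScalarTower.algebraMap_apply]
  exact (isIntegral_algebraMap).mul ((theta_int h).pow _)

end gen

/-- **The Gram matrix of the lattice is integral and unimodular.** -/
theorem uni (hI : S_INT) : S_UNI := by
  intro g k K L _ _ _ _ _ _ _ _ f θ h hsq α e hα hS
  have hfd := fin_dim h
  have hint := hI g k K L f θ h hsq
  have hG : ∀ i j, ∃ p : k[X], algebraMap k[X] K p = h.top (e i * e j / α) :=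
    fun i j => top_int h hint (hS.int i j)
  choose G hG using hG
  -- elements of the dual lattice
  have hdual : ∀ y : L, (∀ j, h.top (y * e j / α) ∈ (algebraMap k[X] K).range) →
      ∃ c : Fin (2 * g + 1) → k[X], y = ∑ i, algebraMap k[X] L (c i) * e i := by
    intro y hy
    apply hS.dual
    intro j
    have h1 : e j * y / α = y * e j / α := by ring
    rw [h1]
    apply int_of_top h hint
    intro m _
    obtain ⟨c, hc⟩ := hS.dual (e j * θ ^ m) (fun i => by
      have : e i * (e j * θ ^ m) / α = (e i * e j / α) * θ ^ m := by ring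
      rw [this]
      exact (hS.int i j).mul ((theta_int h).pow m))
    have h2 : y * e j / α * θ ^ m = ∑ l, algebraMap k[X] K (c l) • (y * e l / α) := by
      have h3 : y * e j / α * θ ^ m = y * (e j * θ ^ m) / α := by ring
      rw [h3, hc, Finset.mul_sum, Finset.sum_div]
      refine Finset.sum_congr rfl fun l _ => ?_
      rw [Algebra.smul_def, ← IsScalarTower.algebraMap_apply]
      ring
    rw [h2, map_sum]
    refine sum_mem fun l _ => ?_
    rw [map_smul, smul_eq_mul]
    exact mul_mem ⟨c l, rfl⟩ (hy l)
  -- the Gram matrix over `K`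
  set GK : Mt g K := Matrix.of fun i j => h.top (e i * e j / α) with hGK
  have hGKdet : GK.det ≠ 0 := by
    set E : Mt g K := Matrix.of fun i a => h.basis.repr (e i) a with hE
    have h1 := det g k K L f θ h α E hα
    have h2 : ∀ i, ∑ a, algebraMap K L (E i a) * θ ^ (a : ℕ) = e i := by
      intro i
      conv_rhs => rw [sum_eq h (e i)]
      refine Finset.sum_congr rfl fun a _ => ?_
      rw [Algebra.smul_def, hE, Matrix.of_apply]
    simp only [h2] at h1
    rw [hGK, h1]
    have h3 : E.det ≠ 0 := by
      have h4 : LinearIndependent K E.row := by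
        have h5 := hS.li.map' (h.basis.equivFun : L →ₗ[K] (Fin (2 * g + 1) → K))
          (LinearEquiv.ker _)
        exact h5
      have h6 := (Matrix.linearIndependent_rows_iff_isUnit.mp h4)
      rw [Matrix.isUnit_iff_isUnit_det] at h6
      exact h6.ne_zero
    have h4 : Algebra.norm K α ≠ 0 := Algebra.norm_ne_zero_iff.mpr hα
    apply div_ne_zero _ h4
    exact mul_ne_zero (pow_ne_zero _ (neg_ne_zero.mpr one_ne_zero)) (pow_ne_zero _ h3)
  have hunit : IsUnit GK.det := isUnit_iff_ne_zero.mpr hGKdet
  -- the dual basis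
  have hinv : ∀ i, ∃ c : Fin (2 * g + 1) → k[X], ∀ l, GK⁻¹ i l = algebraMap k[X] K (c l) := by
    intro i
    set y : L := ∑ l, GK⁻¹ i l • e l with hy
    obtain ⟨c, hc⟩ := hdual y (fun j => by
      have h1 : y * e j / α = ∑ l, GK⁻¹ i l • (e l * e j / α) := by
        rw [hy, Finset.sum_mul, Finset.sum_div]
        refine Finset.sum_congr rfl fun l _ => ?_
        rw [Algebra.smul_def, Algebra.smul_def]
        ring
      have h2 : h.top (y * e j / α) = (GK⁻¹ * GK) i j := by
        rw [h1, map_sum, Matrix.mul_apply]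
        refine Finset.sum_congr rfl fun l _ => ?_
        rw [map_smul, smul_eq_mul, hGK, Matrix.of_apply]
      rw [h2, Matrix.nonsing_inv_mul _ hunit, Matrix.one_apply]
      split_ifs
      · exact one_mem _
      · exact zero_mem _)
    refine ⟨c, fun l => ?_⟩
    have h3 : ∑ l, (GK⁻¹ i l - algebraMap k[X] K (c l)) • e l = 0 := by
      rw [← sub_eq_zero.mpr hc, hy, ← Finset.sum_sub_distrib]
      refine Finset.sum_congr rfl fun l _ => ?_
      rw [sub_smul, Algebra.smul_def (algebraMap k[X] K (c l)), ← IsScalarTower.algebraMap_apply]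
    have h4 := Fintype.linearIndependent_iff.mp hS.li _ h3 l
    exact sub_eq_zero.mp h4
  choose C hC using hinv
  refine ⟨Matrix.of G, ?_, fun i j => by rw [Matrix.of_apply, hG]⟩
  have hmul : (Matrix.of G : Mt g k[X]) * (Matrix.of C : Mt g k[X]) = 1 := by
    have hinj : Function.Injective fun M : Mt g k[X] => M.map (algebraMap k[X] K) := by
      intro M M' hM
      refine Matrix.ext fun i j => ?_
      have h0 : algebraMap k[X] K (M i j) = algebraMap k[X] K (M' i j) := congrFun (congrFun hM i) j
      exact IsFractionRing.injective k[X] K h0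
    apply hinj
    simp only
    rw [Matrix.map_mul]
    have h1 : (Matrix.of G : Mt g k[X]).map (algebraMap k[X] K) = GK := by
      ext i j
      rw [Matrix.map_apply, Matrix.of_apply, hG, hGK, Matrix.of_apply]
    have h2 : (Matrix.of C : Mt g k[X]).map (algebraMap k[X] K) = GK⁻¹ := by
      ext i j
      rw [Matrix.map_apply, Matrix.of_apply, hC]
    rw [h1, h2, Matrix.mul_nonsing_inv _ hunit]
    ext i j
    rw [Matrix.map_apply, Matrix.one_apply, Matrix.one_apply]
    split_ifs
    · rw [map_one]
    · rw [map_zero]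
  have hd := congrArg Matrix.det hmul
  rw [Matrix.det_mul, Matrix.det_one] at hd
  exact IsUnit.of_mul_eq_one _ hd

end Pool.Agent.N262.PJ
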